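import Pool.Agent.L5helper32.GP.D.Defs

/-!
# The chain of the descents
-/

set_option autoImplicit false

open Finset MeasureTheory ProbabilityTheory Filter Topology

namespace Pool.Agent.L5helper32.GP

open Pool.Agent.L5helper32.GR (Root w pr sg Dep lev q)

variable {Ω : Type} [MeasurableSpace Ω] {μ : Measure Ω} [IsProbabilityMeasure μ]
  {T : ℕ × ℕ × ℕ → Ω → ℕ}

open Classical in
/-- The number of the `j ≤ k` in `S`. -/
lemma card_shift46 (S : ℕ → Prop) (k : ℕ) :
    #{j ∈ range (k + 1) | S j} = #{j ∈ range k | S (j + 1)} + if S 0 then 1 else 0 := by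
  rw [card_filter, card_filter, sum_range_succ']

open Classical in
/-- D6: the chain of the descents. -/
theorem chain_le {p : ℕ} (hp : p.Prime) (h : Res μ T) {P : ℕ → Set (ℕ × ℕ × ℕ → ℕ)}
    (hP : ∀ n, ∃ R, Dep (bx {n} R) (P n)) {q' : ℝ} (hq : 0 ≤ q') {z₂ : ℕ} (hz₂ : 1 ≤ z₂)
    (hstep : ∀ z ≥ z₂, ∀ (n R : ℕ) (A : Set (ℕ × ℕ × ℕ → ℕ)),
      Dep (bx (range ((lev p z + 3) / 4)) R) A →
      Pr μ T (A ∩ {f | (GoodRun p (cur f) z ∧ nextZero p (cur f) z = n) ∧ f ∈ P n})
        ≤ q' * Pr μ T (A ∩ {f | GoodRun p (cur f) z ∧ nextZero p (cur f) z = n}))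
    (hlev : ∀ z ≥ z₂, ∀ n : ℕ, lev p z ≤ 4 * n → lev p z < (lev p n + 3) / 4 ∧ z < n) :
    ∀ (k : ℕ) (S : ℕ → Prop) (z : ℕ), z₂ ≤ z → ∀ (R : ℕ) (A : Set (ℕ × ℕ × ℕ → ℕ)),
      Dep (bx (range ((lev p z + 3) / 4)) R) A →
      Pr μ T {f | f ∈ A ∧ CK p P f k S z} ≤ q' ^ (#{j ∈ range k | S j}) * Pr μ T A := by
  have hp1 : 1 ≤ p := hp.one_lt.le
  intro k
  induction k with
  | zero =>
    intro S z hz R A hA
    have e : {f | f ∈ A ∧ CK p P f 0 S z} = A := by
      ext f
      simp [CK]
    rw [e]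
    simp
  | succ k ih =>
    intro S z hz R A hA
    have hz1 : 1 ≤ z := by omega
    set B : ℕ → Set (ℕ × ℕ × ℕ → ℕ) := fun n =>
      A ∩ {f | GoodRun p (cur f) z ∧ nextZero p (cur f) z = n} with hB
    set A' : ℕ → Set (ℕ × ℕ × ℕ → ℕ) := fun n =>
      {f | f ∈ B n ∧ (S 0 → f ∈ P n)} with hA'
    have hPrA : 0 ≤ Pr μ T A := measureReal_nonneg
    -- the dependence
    have hdepB : ∀ n, Dep (bx (range ((lev p z + 3) / 4)) R ∪
        bx (Icc ((lev p z + 3) / 4) (lev p z)) (lev p z + 3)) (B n) := by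
      intro n f g hfg
      have h1 := hA f g fun i hi => hfg i (Finset.mem_union_left _ hi)
      have h2 := dep_goodrun_eq hp1 hz1 n f g fun i hi => hfg i (Finset.mem_union_right _ hi)
      exact and_congr h1 h2
    have he : ∀ n, Pr μ T (A' n) ≤ q' ^ (if S 0 then 1 else 0) * Pr μ T (B n) := by
      intro n
      by_cases hS : S 0
      · rw [if_pos hS, pow_one]
        refine le_trans (le_of_eq ?_) (hstep z hz n R A hA)
        congr 1
        ext f
        simp only [hA', hB, Set.mem_ofPred_eq, Set.mem_inter_iff]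
        tauto
      · rw [if_neg hS, pow_zero, one_mul]
        refine le_of_eq ?_
        congr 1
        ext f
        simp only [hA', Set.mem_ofPred_eq]
        tauto
    have hcl : ∀ n ∈ range (lev p z + 1), Pr μ T {f | f ∈ A' n ∧ CK p P f k (fun j => S (j + 1)) n} ≤
        q' ^ (#{j ∈ range (k + 1) | S j}) * Pr μ T (B n) := by
      intro n hn'
      rw [Finset.mem_range] at hn'
      by_cases hn : lev p z ≤ 4 * n
      · obtain ⟨h1, h2⟩ := hlev z hz n hn
        obtain ⟨Rn, hRn⟩ := hP n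
        have h3 := ih (fun j => S (j + 1)) n (by omega) (max (max R (lev p z + 3)) Rn) (A' n) (by
          intro f g hfg
          refine and_congr (hdepB n f g fun i hi => hfg i ?_)
            (imp_congr_right fun _ => hRn f g fun i hi => hfg i ?_)
          · unfold bx at hi ⊢
            simp only [Finset.mem_union, Finset.mem_product, Finset.mem_range, Finset.mem_Icc] at hi
            simp only [Finset.mem_product, Finset.mem_range, lt_max_iff]
            rcases hi with ⟨a, b, b'⟩ | ⟨a, b, b'⟩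
            · exact ⟨by omega, Or.inl (Or.inl b), Or.inl (Or.inl b')⟩
            · exact ⟨by omega, Or.inl (Or.inr b), Or.inl (Or.inr b')⟩
          · unfold bx at hi ⊢
            simp only [Finset.mem_product, Finset.mem_range, Finset.mem_singleton] at hi
            simp only [Finset.mem_product, Finset.mem_range, lt_max_iff]
            obtain ⟨a, b, b'⟩ := hi
            exact ⟨by omega, Or.inr b, Or.inr b'⟩)
        refine h3.trans ?_
        rw [card_shift46, pow_add, mul_assoc]
        exact mul_le_mul_of_nonneg_left (he n) (pow_nonneg hq _)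
      · have e2 : {f | f ∈ A' n ∧ CK p P f k (fun j => S (j + 1)) n} = (∅ : Set (ℕ × ℕ × ℕ → ℕ)) := by
          ext f
          simp only [hA', hB, Set.mem_ofPred_eq, Set.mem_inter_iff, Set.mem_empty_iff_false, iff_false]
          rintro ⟨⟨⟨_, h1, h2⟩, _⟩, _⟩
          have h3 := h1.1
          rw [h2] at h3
          exact hn h3
        rw [e2]
        have h4 : 0 ≤ q' ^ (#{j ∈ range (k + 1) | S j}) * Pr μ T (B n) :=
          mul_nonneg (pow_nonneg hq _) measureReal_nonneg
        refine le_trans (le_of_eq ?_) h4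
        unfold Pr
        simp
    -- the union
    have hsub : {ω | (fun i => T i ω) ∈ {f | f ∈ A ∧ CK p P f (k + 1) S z}} ⊆
        ⋃ n ∈ range (lev p z + 1),
          {ω | (fun i => T i ω) ∈ {f | f ∈ A' n ∧ CK p P f k (fun j => S (j + 1)) n}} := by
      intro ω hω
      obtain ⟨h1, h2, h3, h4⟩ := hω
      rw [Set.mem_iUnion₂]
      refine ⟨nextZero p (cur fun i => T i ω) z, ?_, ⟨⟨h1, h2, rfl⟩, h3⟩, h4⟩
      rw [Finset.mem_range]
      have := nextZero_le hp1 (cur fun i => T i ω) hz1
      omega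
    have hunion : ∑ n ∈ range (lev p z + 1), Pr μ T (B n) ≤ Pr μ T A := by
      have h1 : μ.real (⋃ n ∈ range (lev p z + 1), {ω | (fun i => T i ω) ∈ B n}) =
          ∑ n ∈ range (lev p z + 1), μ.real {ω | (fun i => T i ω) ∈ B n} := by
        refine measureReal_biUnion_finset ?_ fun n _ => GR.dep_meas h.meas (hdepB n)
        intro n _ n' _ hnn
        refine Set.disjoint_left.2 fun ω h2 h3 => hnn ?_
        have h4 : nextZero p (cur fun i => T i ω) z = n := h2.2.2
        have h5 : nextZero p (cur fun i => T i ω) z = n' := h3.2.2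
        rw [← h4, ← h5]
      have h2 : μ.real (⋃ n ∈ range (lev p z + 1), {ω | (fun i => T i ω) ∈ B n}) ≤
          μ.real {ω | (fun i => T i ω) ∈ A} := by
        refine measureReal_mono ?_
        intro ω hω
        rw [Set.mem_iUnion₂] at hω
        obtain ⟨n, _, h3⟩ := hω
        exact h3.1
      rw [h1] at h2
      exact h2
    have hmain : Pr μ T {f | f ∈ A ∧ CK p P f (k + 1) S z} ≤
        ∑ n ∈ range (lev p z + 1), Pr μ T {f | f ∈ A' n ∧ CK p P f k (fun j => S (j + 1)) n} :=
      (measureReal_mono hsub (measure_ne_top _ _)).trans (measureReal_biUnion_finset_le _ _)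
    calc _ ≤ ∑ n ∈ range (lev p z + 1), q' ^ (#{j ∈ range (k + 1) | S j}) * Pr μ T (B n) :=
          hmain.trans (Finset.sum_le_sum fun n hn => hcl n hn)
      _ = q' ^ (#{j ∈ range (k + 1) | S j}) * ∑ n ∈ range (lev p z + 1), Pr μ T (B n) := by
          rw [Finset.mul_sum]
      _ ≤ _ := mul_le_mul_of_nonneg_left hunion (pow_nonneg hq _)

end Pool.Agent.L5helper32.GP
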