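import Pool.Agent.L5helper32.GP.Next
import Pool.Agent.L5helper32.GR.Indep

set_option autoImplicit false

open Finset MeasureTheory ProbabilityTheory

namespace Pool.Agent.L5helper32.GP

open Pool.Agent.L5helper32.GR (Root w pr sg Dep lev q)

variable {Ω : Type} [MeasurableSpace Ω] {μ : Measure Ω} [IsProbabilityMeasure μ]
  {T : ℕ × ℕ × ℕ → Ω → ℕ}

/-- From a fresh zero on, all descents are good with probability at least `1 - ψ`. -/
theorem fresh {p : ℕ} (hp : p.Prime) (h : Res μ T) {δ ψ : ℕ → ℝ} {z₂ : ℕ} (hz₂ : 3 ≤ z₂)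
    (hδ : ∀ z ≥ z₂, Pr μ T {f | ¬ GoodRun p (cur f) z} ≤ δ z)
    (hψ0 : ∀ z ≥ z₂, 0 ≤ ψ z)
    (hψ : ∀ z ≥ z₂, ∀ z' : ℕ, lev p z ≤ 4 * z' → δ z + ψ z' ≤ ψ z)
    (hlev : ∀ z ≥ z₂, ∀ n : ℕ, lev p z ≤ 4 * n → lev p z < (lev p n + 3) / 4 ∧ z < n) :
    ∀ k z : ℕ, z₂ ≤ z → ∀ (R : ℕ) (A : Set (ℕ × ℕ × ℕ → ℕ)),
      Dep (bx (range ((lev p z + 3) / 4)) R) A →
      Pr μ T {f | f ∈ A ∧ BadK p f k z} ≤ ψ z * Pr μ T A := by
  classical
  have hp1 : 1 ≤ p := hp.one_lt.le
  intro k
  induction k with
  | zero =>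
    intro z hz R A hA
    have e : {f | f ∈ A ∧ BadK p f 0 z} = (∅ : Set (ℕ × ℕ × ℕ → ℕ)) := by
      ext f
      simp [BadK]
    rw [e]
    unfold Pr
    have h1 := hψ0 z hz
    have h2 : 0 ≤ μ.real {ω | (fun i => T i ω) ∈ A} := measureReal_nonneg
    simp only [Set.mem_empty_iff_false, Set.ofPred_false, measureReal_empty]
    positivity
  | succ k ih =>
    intro z hz R A hA
    have hz1 : 1 ≤ z := by omega
    set A' : ℕ → Set (ℕ × ℕ × ℕ → ℕ) := fun n =>
      {f | f ∈ A ∧ (GoodRun p (cur f) z ∧ nextZero p (cur f) z = n)} with hA'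
    have hzlev : z ≤ lev p z := by unfold lev; omega
    have hpos : 0 ≤ ψ z - δ z := by
      have h1 := hψ z hz (lev p z) (by omega)
      have h2 := hψ0 (lev p z) (by omega)
      linarith
    have hPrA : 0 ≤ Pr μ T A := measureReal_nonneg
    -- the first part
    have hd : Disjoint (bx (range ((lev p z + 3) / 4)) R)
        (bx (Icc ((lev p z + 3) / 4) (lev p z)) (lev p z + 3)) := by
      rw [Finset.disjoint_left]
      rintro ⟨a, b⟩ h1 h2
      unfold bx at h1 h2
      rw [Finset.mem_product, Finset.mem_range] at h1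
      rw [Finset.mem_product, Finset.mem_Icc] at h2
      have h3 := h1.1
      have h4 := h2.1.1
      simp only at h3 h4
      omega
    have hfirst : Pr μ T {f | f ∈ A ∧ ¬ GoodRun p (cur f) z} ≤ δ z * Pr μ T A := by
      have h1 : Pr μ T {f | f ∈ A ∧ ¬ GoodRun p (cur f) z} =
          Pr μ T A * Pr μ T {f | ¬ GoodRun p (cur f) z} :=
        GR.dep_indep h.meas h.indep hd hA (B := {f | ¬ GoodRun p (cur f) z})
          (fun f g hfg => not_congr (dep_goodrun hp1 hz1 f g hfg))
      rw [h1, mul_comm]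
      exact mul_le_mul_of_nonneg_right (hδ z hz) hPrA
    -- the dependence
    have hdep : ∀ n, Dep (bx (range ((lev p z + 3) / 4)) R ∪
        bx (Icc ((lev p z + 3) / 4) (lev p z)) (lev p z + 3)) (A' n) := by
      intro n f g hfg
      have h1 := hA f g fun i hi => hfg i (Finset.mem_union_left _ hi)
      have h2 := dep_goodrun_eq hp1 hz1 n f g fun i hi => hfg i (Finset.mem_union_right _ hi)
      exact and_congr h1 h2
    have hcl : ∀ n, Pr μ T {f | f ∈ A' n ∧ BadK p f k n} ≤ (ψ z - δ z) * Pr μ T (A' n) := by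
      intro n
      by_cases hn : lev p z ≤ 4 * n
      · obtain ⟨h1, h2⟩ := hlev z hz n hn
        have h3 := ih n (by omega) (max R (lev p z + 3)) (A' n) (by
          intro f g hfg
          refine hdep n f g fun i hi => hfg i ?_
          unfold bx at hi ⊢
          simp only [Finset.mem_union, Finset.mem_product, Finset.mem_range, Finset.mem_Icc] at hi
          simp only [Finset.mem_product, Finset.mem_range, lt_max_iff]
          rcases hi with ⟨a, b, b'⟩ | ⟨a, b, b'⟩
          · exact ⟨by omega, Or.inl b, Or.inl b'⟩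
          · exact ⟨by omega, Or.inr b, Or.inr b'⟩)
        refine h3.trans (mul_le_mul_of_nonneg_right ?_ measureReal_nonneg)
        have := hψ z hz n hn
        linarith
      · have e1 : A' n = ∅ := by
          ext f
          simp only [hA', Set.mem_ofPred_eq, Set.mem_empty_iff_false, iff_false, not_and]
          intro _ h1 h2
          have h3 := h1.1
          rw [h2] at h3
          exact hn h3
        have e2 : {f | f ∈ A' n ∧ BadK p f k n} = (∅ : Set (ℕ × ℕ × ℕ → ℕ)) := by
          rw [e1]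
          ext f
          simp
        rw [e2, e1]
        unfold Pr
        simp
    -- the union
    have hsub : {ω | (fun i => T i ω) ∈ {f | f ∈ A ∧ BadK p f (k + 1) z}} ⊆
        {ω | (fun i => T i ω) ∈ {f | f ∈ A ∧ ¬ GoodRun p (cur f) z}} ∪
        ⋃ n ∈ range (lev p z + 1), {ω | (fun i => T i ω) ∈ {f | f ∈ A' n ∧ BadK p f k n}} := by
      intro ω hω
      obtain ⟨h1, h2⟩ := hω
      by_cases hg : GoodRun p (cur fun i => T i ω) z
      · right
        rcases h2 with h2 | h2
        · exact absurd hg h2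
        · rw [Set.mem_iUnion₂]
          refine ⟨nextZero p (cur fun i => T i ω) z, ?_, ?_, h2⟩
          · rw [Finset.mem_range]
            have := nextZero_le hp1 (cur fun i => T i ω) hz1
            omega
          · exact ⟨h1, hg, rfl⟩
      · left
        exact ⟨h1, hg⟩
    have hunion : ∑ n ∈ range (lev p z + 1), Pr μ T (A' n) ≤ Pr μ T A := by
      have h1 : μ.real (⋃ n ∈ range (lev p z + 1), {ω | (fun i => T i ω) ∈ A' n}) =
          ∑ n ∈ range (lev p z + 1), μ.real {ω | (fun i => T i ω) ∈ A' n} := by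
        refine measureReal_biUnion_finset ?_ fun n _ => GR.dep_meas h.meas (hdep n)
        intro n _ n' _ hnn
        refine Set.disjoint_left.2 fun ω h2 h3 => hnn ?_
        have h4 : nextZero p (cur fun i => T i ω) z = n := h2.2.2
        have h5 : nextZero p (cur fun i => T i ω) z = n' := h3.2.2
        rw [← h4, ← h5]
      have h2 : μ.real (⋃ n ∈ range (lev p z + 1), {ω | (fun i => T i ω) ∈ A' n}) ≤
          μ.real {ω | (fun i => T i ω) ∈ A} := by
        refine measureReal_mono ?_
        intro ω hω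
        rw [Set.mem_iUnion₂] at hω
        obtain ⟨n, _, h3⟩ := hω
        exact h3.1
      rw [h1] at h2
      exact h2
    have hmain : Pr μ T {f | f ∈ A ∧ BadK p f (k + 1) z} ≤
        Pr μ T {f | f ∈ A ∧ ¬ GoodRun p (cur f) z} +
          ∑ n ∈ range (lev p z + 1), Pr μ T {f | f ∈ A' n ∧ BadK p f k n} :=
      (measureReal_mono hsub).trans ((measureReal_union_le _ _).trans
        (add_le_add le_rfl (measureReal_biUnion_finset_le _ _)))
    have hs : ∑ n ∈ range (lev p z + 1), Pr μ T {f | f ∈ A' n ∧ BadK p f k n} ≤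
        (ψ z - δ z) * Pr μ T A := by
      calc _ ≤ ∑ n ∈ range (lev p z + 1), (ψ z - δ z) * Pr μ T (A' n) :=
            Finset.sum_le_sum fun n _ => hcl n
        _ = (ψ z - δ z) * ∑ n ∈ range (lev p z + 1), Pr μ T (A' n) := by rw [Finset.mul_sum]
        _ ≤ _ := mul_le_mul_of_nonneg_left hunion hpos
    calc _ ≤ δ z * Pr μ T A + (ψ z - δ z) * Pr μ T A := hmain.trans (add_le_add hfirst hs)
      _ = ψ z * Pr μ T A := by ring

end Pool.Agent.L5helper32.GP
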