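import Pool.Agent.L5helper12.PV.JBC

/-! Change of the base: the density at the height `V T` and the density at the height `T`. -/

set_option autoImplicit false

open Filter Topology Set MeasureTheory Complex H370

namespace Pool.Agent.L5helper12.CV

open Pool.Agent.L5helper10.TV hiding GG
open Pool.Agent.L5helper12.PV
open Pool.Agent.Y744 (mz mz_nonneg)

/-- the squares of the zero sums over two nested sets -/
lemma SP_nest {P Q : Finset ℂ} (hPQ : P ⊆ Q) (u t E A : ℝ) (hE0 : 0 ≤ E)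
    (hE : ∀ s ∈ Q \ P, Real.exp (-(s.im - t) ^ 2 / 4) ≤ E) (hA : Lg Q t ≤ A) :
    |‖SP Q u t‖ ^ 2 - ‖SP P u t‖ ^ 2| ≤ 2 * E * A ^ 2 := by
  classical
  have hA0 : 0 ≤ A := (norm_nonneg _).trans ((SP_le Q u t).trans hA)
  have hadd : SP Q u t = SP P u t + SP (Q \ P) u t := by
    unfold SP Y750.OM.GG
    rw [add_comm, Finset.sum_sdiff hPQ]
  have h1 : ‖SP (Q \ P) u t‖ ≤ E * A :=
    (SP_far (Q \ P) u t E hE).trans
      (mul_le_mul_of_nonneg_left ((Lg_mono Finset.sdiff_subset t).trans hA) hE0)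
  have h2 : ‖SP Q u t‖ ≤ A := (SP_le Q u t).trans hA
  have h3 : ‖SP P u t‖ ≤ A := (SP_le P u t).trans ((Lg_mono hPQ t).trans hA)
  have h4 : |‖SP Q u t‖ - ‖SP P u t‖| ≤ E * A := by
    have := abs_norm_sub_norm_le (SP Q u t) (SP P u t)
    rw [hadd, add_sub_cancel_left, ← hadd] at this
    exact this.trans h1
  have h5 : ‖SP Q u t‖ ^ 2 - ‖SP P u t‖ ^ 2 =
      (‖SP Q u t‖ - ‖SP P u t‖) * (‖SP Q u t‖ + ‖SP P u t‖) := by ring
  rw [h5, abs_mul, abs_of_nonneg (by positivity : 0 ≤ ‖SP Q u t‖ + ‖SP P u t‖)]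
  calc |‖SP Q u t‖ - ‖SP P u t‖| * (‖SP Q u t‖ + ‖SP P u t‖) ≤ (E * A) * (2 * A) := by
        apply mul_le_mul h4 (by linarith) (by positivity) (by positivity)
    _ = _ := by ring

lemma Zw_mono {T T' : ℝ} (h0 : 0 ≤ T) (h : T ≤ T') : Zw T ⊆ Zw T' := by
  intro s hs
  rw [mem_Zw] at hs ⊢
  obtain ⟨a1, a2, a3, a4, a5⟩ := hs
  exact ⟨a1, a2, a3, a4.trans (pow_le_pow_left₀ h0 h 2), a5⟩

/-- the squares of the zero sums for two different bases -/
lemma SP_base (C : ℝ) (hC : ∀ T : ℝ, 4 ≤ T → ∀ t : ℝ, Lg (Zw T) t ≤ C * Real.log T) (T T' : ℝ) (hT : 4 ≤ T)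
    (hT' : 4 ≤ T') (u t E A : ℝ) (hE0 : 0 ≤ E)
    (hE : ∀ x : ℝ, (min T T') ^ 2 < x → Real.exp (-(x - t) ^ 2 / 4) ≤ E)
    (hA : C * Real.log T ≤ A) (hA' : C * Real.log T' ≤ A) :
    |‖SP (Zw T) u t‖ ^ 2 - ‖SP (Zw T') u t‖ ^ 2| ≤ 2 * E * A ^ 2 := by
  classical
  rcases le_total T T' with h | h
  · rw [abs_sub_comm]
    refine SP_nest (Zw_mono (by linarith) h) u t E A hE0 (fun s hs => ?_) ((hC T' hT' t).trans hA')
    rw [Finset.mem_sdiff, mem_Zw, mem_Zw] at hs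
    obtain ⟨⟨a1, a2, a3, a4, a5⟩, h2⟩ := hs
    apply hE
    rw [min_eq_left h]
    by_contra hc
    exact h2 ⟨a1, a2, a3, not_lt.1 hc, a5⟩
  · refine SP_nest (Zw_mono (by linarith) h) u t E A hE0 (fun s hs => ?_) ((hC T hT t).trans hA)
    rw [Finset.mem_sdiff, mem_Zw, mem_Zw] at hs
    obtain ⟨⟨a1, a2, a3, a4, a5⟩, h2⟩ := hs
    apply hE
    rw [min_eq_right h]
    by_contra hc
    exact h2 ⟨a1, a2, a3, not_lt.1 hc, a5⟩

lemma ii_of_cont {f : ℝ → ℝ} (hf : Continuous f) (a b : ℝ) : IntegrableOn f (Ioc a b) :=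
  hf.continuousOn.integrableOn_Icc.mono_set Ioc_subset_Icc_self

/-- the mean squares for two sets -/
lemma MS_set {k : ℝ → ℝ} {ℓ : ℕ} {C B : ℝ} (h : KW k ℓ C B) (P Q : Finset ℂ) (L t δ : ℝ) (hL : 0 ≤ L)
    (hδ : ∀ u, |‖SP P u t‖ ^ 2 - ‖SP Q u t‖ ^ 2| ≤ δ) :
    |MS k ℓ P L t - MS k ℓ Q L t| ≤ B * δ * (ℓ * L) := by
  have hkc := h.cont
  have hc : ∀ P : Finset ℂ, Continuous (fun u => k (u / L) * ‖SP P u t‖ ^ 2) := fun P =>
    (hkc.comp (by fun_prop : Continuous fun u : ℝ => u / L)).mul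
      ((SP_cont_c P (fun u : ℝ => u) (fun _ => t) continuous_id continuous_const).norm.pow 2)
  unfold MS
  rw [← integral_sub (ii_of_cont (hc P) _ _) (ii_of_cont (hc Q) _ _)]
  have := norm_setIntegral_le_of_norm_le_const (μ := volume) (s := Ioc 0 (ℓ * L))
    (f := fun u => k (u / L) * ‖SP P u t‖ ^ 2 - k (u / L) * ‖SP Q u t‖ ^ 2)
    (C := B * δ) (by rw [Real.volume_Ioc]; exact ENNReal.ofReal_lt_top) (fun u _ => by
      rw [← mul_sub, norm_mul, Real.norm_of_nonneg (h.nn _)]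
      exact mul_le_mul (h.bd _) (hδ u) (norm_nonneg _) h.B0)
  rwa [Real.volume_real_Ioc_of_le (by positivity), sub_zero] at this

/-- the mean squares for two scales -/
lemma MS_scale {k k2 : ℝ → ℝ} {ℓ ℓ2 : ℕ} {C B C2 B2 : ℝ} (h : KW k ℓ C B) (h2 : KW k2 ℓ2 C2 B2)
    (hk2 : ∀ α : ℝ, 0 ≤ α → α ≤ ℓ + 2 → 1 ≤ k2 α) (P : Finset ℂ) (L Λ c t : ℝ) (hL : 0 < L) (hΛ : 0 < Λ)
    (hc : |Λ - L| ≤ c) (hLΛ : ℓ * L ≤ (ℓ + 1) * Λ) :
    |MS k ℓ P L t - MS k ℓ P Λ t| ≤ C * (ℓ + 1) * c / L * MS k2 ℓ2 P Λ t := by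
  have hC := h.C0
  have hc0 : 0 ≤ c := (abs_nonneg _).trans hc
  have hkc := h.cont
  have hkc2 := h2.cont
  have hℓ0 : (0 : ℝ) ≤ ℓ := Nat.cast_nonneg ℓ
  have hSc : Continuous (fun u => ‖SP P u t‖ ^ 2) :=
    ((SP_cont_c P (fun u : ℝ => u) (fun _ => t) continuous_id continuous_const).norm.pow 2)
  have hcc : ∀ s : ℝ, Continuous (fun u => k (u / s) * ‖SP P u t‖ ^ 2) := fun s =>
    (hkc.comp (by fun_prop : Continuous fun u : ℝ => u / s)).mul hSc
  have hcc2 : Continuous (fun u => k2 (u / Λ) * ‖SP P u t‖ ^ 2) :=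
    (hkc2.comp (by fun_prop : Continuous fun u : ℝ => u / Λ)).mul hSc
  have hext : ∀ s : ℝ, 0 < s → ℓ * s ≤ (ℓ + 1) * Λ → ∫ u in Ioc 0 (ℓ * s), k (u / s) * ‖SP P u t‖ ^ 2 =
      ∫ u in Ioc 0 ((ℓ + 1) * Λ), k (u / s) * ‖SP P u t‖ ^ 2 := by
    intro s hs hsM
    symm
    apply setIntegral_eq_of_subset_of_forall_sdiff_eq_zero measurableSet_Ioc (Ioc_subset_Ioc_right hsM)
    intro u hu
    have : ℓ * s < u := by
      by_contra hc
      exact hu.2 ⟨hu.1.1, not_lt.1 hc⟩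
    rw [h.supp _ (by rw [le_div_iff₀ hs]; exact this.le), zero_mul]
  have hℓ2 : (ℓ : ℝ) + 2 < ℓ2 := by
    by_contra hcon
    have h1 := hk2 (ℓ + 2) (by positivity) le_rfl
    rw [h2.supp (ℓ + 2) (not_lt.1 hcon)] at h1
    linarith
  unfold MS
  rw [hext L hL hLΛ, hext Λ hΛ (by nlinarith)]
  rw [← integral_sub (ii_of_cont (hcc L) _ _) (ii_of_cont (hcc Λ) _ _)]
  have hbd : ∀ u ∈ Ioc 0 ((ℓ + 1) * Λ), ‖k (u / L) * ‖SP P u t‖ ^ 2 - k (u / Λ) * ‖SP P u t‖ ^ 2‖ ≤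
      C * (ℓ + 1) * c / L * ‖SP P u t‖ ^ 2 := by
    intro u hu
    rw [← sub_mul, norm_mul, Real.norm_of_nonneg (by positivity : 0 ≤ ‖SP P u t‖ ^ 2)]
    apply mul_le_mul_of_nonneg_right _ (by positivity)
    rw [Real.norm_eq_abs]
    refine (h.lip _ _).trans ?_
    rw [mul_assoc, mul_div_assoc]
    apply mul_le_mul_of_nonneg_left _ hC
    have e1 : u / L - u / Λ = u / Λ * ((Λ - L) / L) := by field_simp
    have hu0 : 0 ≤ u / Λ := by have := hu.1; positivity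
    rw [e1, abs_mul, abs_of_nonneg hu0, abs_div (Λ - L) L, abs_of_pos hL, ← mul_div_assoc]
    apply div_le_div_of_nonneg_right _ hL.le
    apply mul_le_mul _ hc (abs_nonneg _) (by positivity)
    rw [div_le_iff₀ hΛ]; exact hu.2
  have h6 : ‖∫ u in Ioc 0 ((ℓ + 1) * Λ), (k (u / L) * ‖SP P u t‖ ^ 2 - k (u / Λ) * ‖SP P u t‖ ^ 2)‖ ≤
      ∫ u in Ioc 0 ((ℓ + 1) * Λ), C * (ℓ + 1) * c / L * ‖SP P u t‖ ^ 2 := by
    apply norm_integral_le_of_norm_le (ii_of_cont (continuous_const.mul hSc) _ _)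
    exact ae_restrict_of_forall_mem measurableSet_Ioc hbd
  rw [integral_const_mul, Real.norm_eq_abs] at h6
  refine h6.trans ?_
  apply mul_le_mul_of_nonneg_left _ (by positivity)
  have e1 : ∫ u in Ioc 0 ((ℓ + 1) * Λ), ‖SP P u t‖ ^ 2 ≤ ∫ u in Ioc 0 ((ℓ + 1) * Λ), k2 (u / Λ) * ‖SP P u t‖ ^ 2 := by
    apply setIntegral_mono_on (ii_of_cont hSc _ _) (ii_of_cont hcc2 _ _) measurableSet_Ioc
    intro u hu
    have h8 : u / Λ ≤ ℓ + 1 := by rw [div_le_iff₀ hΛ]; exact hu.2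
    have h9 : 0 ≤ u / Λ := by have := hu.1; positivity
    have h10 : 1 ≤ k2 (u / Λ) := hk2 _ h9 (by linarith)
    have := mul_le_mul_of_nonneg_right h10 (by positivity : 0 ≤ ‖SP P u t‖ ^ 2)
    linarith
  refine e1.trans ?_
  apply setIntegral_mono_set (ii_of_cont hcc2 _ _)
  · exact Eventually.of_forall fun u => mul_nonneg (h2.nn _) (by positivity)
  · have hsub : Ioc 0 ((ℓ + 1) * Λ) ⊆ Ioc 0 ((ℓ2 : ℝ) * Λ) := by
      apply Ioc_subset_Ioc_right
      apply mul_le_mul_of_nonneg_right _ hΛ.le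
      linarith
    exact LE.le.eventuallyLE hsub

/-- the tail -/
lemma tail_lim (A : ℝ) : Tendsto (fun T : ℝ => A * (Real.log T * Real.exp (-T ^ 2 / 4))) atTop (𝓝 0) := by
  have h1 := Real.tendsto_pow_mul_exp_neg_atTop_nhds_zero 1
  have h2 : Tendsto (fun T : ℝ => Real.log T * Real.exp (-T ^ 2 / 4)) atTop (𝓝 0) := by
    apply squeeze_zero' _ _ h1
    · filter_upwards [eventually_ge_atTop 1] with T hT
      have := Real.log_nonneg hT
      positivity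
    · filter_upwards [eventually_ge_atTop 4] with T hT
      rw [pow_one]
      apply mul_le_mul (by have := Real.log_le_sub_one_of_pos (by linarith : (0 : ℝ) < T); linarith) _
        (Real.exp_pos _).le (by linarith)
      apply Real.exp_le_exp.2
      nlinarith
  simpa using h2.const_mul A

/-- the conditions on the scales -/
lemma scales (ℓ : ℕ) : ∀ᶠ T : ℝ in atTop, 4 ≤ T ∧ 1 ≤ Real.log T ∧
    ∀ V : ℝ, 1 / Real.log T ^ 3 ≤ V → V ≤ Real.log T ^ 3 →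
      0 < V ∧ 4 ≤ V * T ∧ T / Real.log T ^ 3 ≤ V * T ∧ Real.log (V * T) = Real.log T + Real.log V ∧
      |Real.log V| ≤ Real.log T / 2 ∧ ℓ * Real.log T ≤ (ℓ + 1) * Real.log (V * T) ∧
      ∀ y : ℝ, y ≤ 2 → ∀ x : ℝ, (min T (V * T)) ^ 2 < x →
        Real.exp (-(x - y * (V * T)) ^ 2 / 4) ≤ Real.exp (-T ^ 2 / 4) := by
  have h1 : ∀ᶠ T : ℝ in atTop, 4 * Real.log T ^ 9 ≤ T := by
    have := (Real.isLittleO_pow_log_id_atTop (n := 9)).def (by norm_num : (0 : ℝ) < 1 / 4)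
    filter_upwards [this, eventually_ge_atTop 1] with T h hT
    rw [Real.norm_of_nonneg (by have := Real.log_nonneg hT; positivity), id, Real.norm_of_nonneg (by linarith)] at h
    linarith
  have h2 : ∀ᶠ T : ℝ in atTop, 6 * (ℓ + 1) * Real.log (Real.log T) ≤ Real.log T := by
    have h3 : ∀ᶠ x : ℝ in atTop, 6 * (ℓ + 1) * Real.log x ≤ x := by
      have := Real.isLittleO_log_id_atTop.def (by positivity : (0 : ℝ) < 1 / (6 * (ℓ + 1)))
      filter_upwards [this, eventually_ge_atTop 1] with T h hT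
      rw [Real.norm_of_nonneg (Real.log_nonneg hT), id, Real.norm_of_nonneg (by linarith)] at h
      rw [one_div, inv_mul_eq_div, le_div_iff₀ (by positivity)] at h
      linarith
    exact Real.tendsto_log_atTop.eventually h3
  filter_upwards [h1, h2, eventually_ge_atTop 4, Real.tendsto_log_atTop.eventually_ge_atTop 1] with T t1 t2 t3 t4
  refine ⟨t3, t4, fun V hV1 hV2 => ?_⟩
  have hT0 : 0 < T := by linarith
  obtain ⟨L, hL⟩ : ∃ L, L = Real.log T := ⟨_, rfl⟩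
  rw [← hL] at t1 t2 t4 hV1 hV2 ⊢
  have hL0 : 0 < L := by linarith
  have hL3 : 0 < L ^ 3 := by positivity
  have hL31 : 1 ≤ L ^ 3 := one_le_pow₀ t4
  have hV0 : 0 < V := lt_of_lt_of_le (by positivity) hV1
  have hℓ0 : (0 : ℝ) ≤ ℓ := Nat.cast_nonneg ℓ
  have hlog : Real.log (V * T) = L + Real.log V := by
    rw [Real.log_mul hV0.ne' hT0.ne', hL]; ring
  have hll : 0 ≤ Real.log L := Real.log_nonneg t4
  have hlV : |Real.log V| ≤ 3 * Real.log L := by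
    rw [abs_le]
    constructor
    · have := Real.log_le_log (by positivity) hV1
      rw [one_div, Real.log_inv, Real.log_pow] at this
      push_cast at this
      linarith
    · have := Real.log_le_log hV0 hV2
      rw [Real.log_pow] at this
      push_cast at this
      linarith
  have hVT : T / L ^ 3 ≤ V * T := by
    rw [div_eq_mul_one_div, mul_comm]
    exact mul_le_mul_of_nonneg_right hV1 hT0.le
  have hp1 : L ^ 3 ≤ L ^ 9 := pow_le_pow_right₀ t4 (by norm_num)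
  have h4 : 4 ≤ T / L ^ 3 := by
    rw [le_div_iff₀ hL3]; linarith
  refine ⟨hV0, h4.trans hVT, hVT, hlog, ?_, ?_, ?_⟩
  · nlinarith
  · rw [hlog]
    have := (abs_le.1 hlV).1
    nlinarith
  · intro y hy x hx
    apply Real.exp_le_exp.2
    have hVT2 : V * T ≤ L ^ 3 * T := mul_le_mul_of_nonneg_right hV2 hT0.le
    have hm : T / L ^ 3 ≤ min T (V * T) := by
      apply le_min _ hVT
      rw [div_le_iff₀ hL3]
      nlinarith
    have hm2 : (T / L ^ 3) ^ 2 ≤ (min T (V * T)) ^ 2 := pow_le_pow_left₀ (by positivity) hm 2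
    have h5 : 4 * (L ^ 3 * T) ≤ (T / L ^ 3) ^ 2 := by
      rw [div_pow, le_div_iff₀ (by positivity)]
      calc 4 * (L ^ 3 * T) * (L ^ 3) ^ 2 = (4 * L ^ 9) * T := by ring
        _ ≤ T * T := mul_le_mul_of_nonneg_right t1 hT0.le
        _ = T ^ 2 := by ring
    have h6 : y * (V * T) ≤ 2 * (L ^ 3 * T) := by
      have : 0 < V * T := by positivity
      nlinarith
    have h7 : T ≤ L ^ 3 * T := by nlinarith
    have h8 : T ≤ x - y * (V * T) := by linarith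
    nlinarith

/-- the densities at the height `V T` and at the height `T` -/
theorem NU_pt {k k2 : ℝ → ℝ} {ℓ ℓ2 : ℕ} {C B C2 B2 : ℝ} (h : KW k ℓ C B) (h2 : KW k2 ℓ2 C2 B2)
    (hk2 : ∀ α : ℝ, 0 ≤ α → α ≤ ℓ + 2 → 1 ≤ k2 α) : ∃ A : ℝ, 0 ≤ A ∧ ∀ᶠ T : ℝ in atTop,
    ∀ V : ℝ, 1 / Real.log T ^ 3 ≤ V → V ≤ Real.log T ^ 3 → ∀ y ∈ Icc (1 : ℝ) 2,
    |NU k ℓ T (V * y) - (Real.log (V * T) / Real.log T) ^ 2 * NU k ℓ (V * T) y| ≤
      A * (Real.log T * Real.exp (-T ^ 2 / 4)) +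
        (Real.log (V * T) / Real.log T) ^ 2 * (C * (ℓ + 1) * |Real.log V| / Real.log T) * NU k2 ℓ2 (V * T) y := by
  obtain ⟨Cg, hCg0, hCg⟩ := Lg_le
  have hB := h.B0
  refine ⟨32 * Real.sqrt Real.pi * B * Cg ^ 2 * ℓ, by positivity, ?_⟩
  filter_upwards [scales ℓ] with T ⟨hT4, hL1, hs⟩ V hV1 hV2 y hy
  obtain ⟨hV0, hVT4, -, hlog, hlV, hLΛ, hE⟩ := hs V hV1 hV2
  have hE := hE y hy.2
  obtain ⟨L, hL⟩ : ∃ L, L = Real.log T := ⟨_, rfl⟩
  obtain ⟨Λ, hΛ⟩ : ∃ Λ, Λ = Real.log (V * T) := ⟨_, rfl⟩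
  have hL0 : 0 < L := by linarith
  rw [← hL] at hlV hLΛ hlog hL1
  rw [← hΛ] at hLΛ hlog
  have hab := abs_le.1 hlV
  have hΛ0 : 0 < Λ := by linarith
  have hΛ2 : Λ ≤ 2 * L := by linarith
  have b1 : ∀ u, |‖SP (Zw T) u (y * (V * T))‖ ^ 2 - ‖SP (Zw (V * T)) u (y * (V * T))‖ ^ 2| ≤
      2 * Real.exp (-T ^ 2 / 4) * (2 * Cg * L) ^ 2 := by
    intro u
    apply SP_base Cg hCg T (V * T) hT4 hVT4 u (y * (V * T)) _ _ (Real.exp_pos _).le hE
    · rw [← hL]; nlinarith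
    · rw [← hΛ]; nlinarith
  have b2 := MS_set h (Zw T) (Zw (V * T)) L (y * (V * T)) _ hL0.le b1
  have b3 := MS_scale h h2 hk2 (Zw (V * T)) L Λ |Real.log V| (y * (V * T)) hL0 hΛ0
    (by rw [hlog, add_sub_cancel_left]) hLΛ
  have b4 : |MS k ℓ (Zw T) L (y * (V * T)) - MS k ℓ (Zw (V * T)) Λ (y * (V * T))| ≤
      B * (2 * Real.exp (-T ^ 2 / 4) * (2 * Cg * L) ^ 2) * (ℓ * L) +
        C * (ℓ + 1) * |Real.log V| / L * MS k2 ℓ2 (Zw (V * T)) Λ (y * (V * T)) :=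
    (abs_sub_le _ _ _).trans (add_le_add b2 b3)
  have e0 : V * y * T = y * (V * T) := by ring
  have e1 : NU k ℓ T (V * y) - (Λ / L) ^ 2 * NU k ℓ (V * T) y =
      4 * Real.sqrt Real.pi / L ^ 2 *
        (MS k ℓ (Zw T) L (y * (V * T)) - MS k ℓ (Zw (V * T)) Λ (y * (V * T))) := by
    unfold NU
    rw [← hL, ← hΛ, e0]
    field_simp
  have e2 : (Λ / L) ^ 2 * (C * (ℓ + 1) * |Real.log V| / L) * NU k2 ℓ2 (V * T) y =
      4 * Real.sqrt Real.pi / L ^ 2 *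
        (C * (ℓ + 1) * |Real.log V| / L * MS k2 ℓ2 (Zw (V * T)) Λ (y * (V * T))) := by
    unfold NU
    rw [← hΛ]
    field_simp
  have e3 : 32 * Real.sqrt Real.pi * B * Cg ^ 2 * ℓ * (L * Real.exp (-T ^ 2 / 4)) =
      4 * Real.sqrt Real.pi / L ^ 2 * (B * (2 * Real.exp (-T ^ 2 / 4) * (2 * Cg * L) ^ 2) * (ℓ * L)) := by
    field_simp
    ring
  rw [← hL, ← hΛ, e1, e2, e3, ← mul_add, abs_mul, abs_of_nonneg (by positivity)]
  exact mul_le_mul_of_nonneg_left b4 (by positivity)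

/-- the integrated form -/
theorem NU_int {k k2 : ℝ → ℝ} {ℓ ℓ2 : ℕ} {C B C2 B2 : ℝ} (h : KW k ℓ C B) (h2 : KW k2 ℓ2 C2 B2)
    (hk2 : ∀ α : ℝ, 0 ≤ α → α ≤ ℓ + 2 → 1 ≤ k2 α) : ∃ A : ℝ, 0 ≤ A ∧ ∀ᶠ T : ℝ in atTop,
    ∀ V : ℝ, 1 / Real.log T ^ 3 ≤ V → V ≤ Real.log T ^ 3 →
    |(∫ y in (1 : ℝ)..2, NU k ℓ T (V * y)) -
        (Real.log (V * T) / Real.log T) ^ 2 * ∫ y in (1 : ℝ)..2, NU k ℓ (V * T) y| ≤
      A * (Real.log T * Real.exp (-T ^ 2 / 4)) +
        (Real.log (V * T) / Real.log T) ^ 2 * (C * (ℓ + 1) * |Real.log V| / Real.log T) *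
          ∫ y in (1 : ℝ)..2, NU k2 ℓ2 (V * T) y := by
  obtain ⟨A, hA, hpt⟩ := NU_pt h h2 hk2
  refine ⟨A, hA, ?_⟩
  filter_upwards [hpt] with T hT V hV1 hV2
  have hp := hT V hV1 hV2
  have c1 : Continuous fun y => NU k ℓ T (V * y) := (NU_cont h.cont ℓ T).comp (by fun_prop)
  have c2 := NU_cont h.cont ℓ (V * T)
  have c3 := NU_cont h2.cont ℓ2 (V * T)
  have c2' : Continuous fun y => (Real.log (V * T) / Real.log T) ^ 2 * NU k ℓ (V * T) y := continuous_const.mul c2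
  have c3' : Continuous fun y => (Real.log (V * T) / Real.log T) ^ 2 * (C * (ℓ + 1) * |Real.log V| / Real.log T) *
      NU k2 ℓ2 (V * T) y := continuous_const.mul c3
  rw [← intervalIntegral.integral_const_mul, ← intervalIntegral.integral_sub (c1.intervalIntegrable _ _)
    (c2'.intervalIntegrable _ _)]
  refine (intervalIntegral.abs_integral_le_integral_abs (by norm_num)).trans ?_
  have h5 : ∫ y in (1 : ℝ)..2, |NU k ℓ T (V * y) - (Real.log (V * T) / Real.log T) ^ 2 * NU k ℓ (V * T) y| ≤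
      ∫ y in (1 : ℝ)..2, (A * (Real.log T * Real.exp (-T ^ 2 / 4)) +
        (Real.log (V * T) / Real.log T) ^ 2 * (C * (ℓ + 1) * |Real.log V| / Real.log T) * NU k2 ℓ2 (V * T) y) := by
    apply intervalIntegral.integral_mono_on (by norm_num)
    · exact ((c1.sub c2').abs).intervalIntegrable _ _
    · exact (continuous_const.add c3').intervalIntegrable _ _
    · exact hp
  refine h5.trans (le_of_eq ?_)
  rw [intervalIntegral.integral_add (continuous_const.intervalIntegrable _ _)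
    (c3'.intervalIntegrable _ _), intervalIntegral.integral_const_mul,
    intervalIntegral.integral_const]
  norm_num

lemma NU_chg (k : ℝ → ℝ) (ℓ : ℕ) (T V : ℝ) :
    ∫ y in V..(2 * V), NU k ℓ T y = V * ∫ y in (1 : ℝ)..2, NU k ℓ T (V * y) := by
  have := intervalIntegral.smul_integral_comp_mul_left (a := 1) (b := 2) (NU k ℓ T) V
  rw [smul_eq_mul, mul_one, mul_comm V 2] at this
  exact this.symm

theorem NU_base {k k2 : ℝ → ℝ} {ℓ ℓ2 : ℕ} {C B C2 B2 : ℝ} (h : KW k ℓ C B) (h2 : KW k2 ℓ2 C2 B2)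
    (hk2 : ∀ α : ℝ, 0 ≤ α → α ≤ ℓ + 2 → 1 ≤ k2 α) (D : ℝ)
    (hb : ∀ᶠ T in atTop, ∫ y in (1 : ℝ)..2, NU k2 ℓ2 T y ≤ D) (ρ : ℝ)
    (hlim : Tendsto (fun T => ∫ y in (1 : ℝ)..2, NU k ℓ T y) atTop (𝓝 ρ)) :
    (∃ C1 : ℝ, 0 ≤ C1 ∧ ∀ᶠ T in atTop, ∀ V : ℝ, 1 / Real.log T ^ 3 ≤ V → V ≤ Real.log T ^ 3 →
      ∫ y in V..(2 * V), NU k ℓ T y ≤ C1 * V) ∧
    (∀ V : ℝ, 0 < V → Tendsto (fun T => ∫ y in V..(2 * V), NU k ℓ T y) atTop (𝓝 (ρ * V))) := by
  obtain ⟨A, hA, hint⟩ := NU_int h h2 hk2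
  have hC := h.C0
  have hD' : ∀ᶠ T in atTop, ∫ y in (1 : ℝ)..2, NU k2 ℓ2 T y ≤ max D 0 :=
    hb.mono fun T hT => hT.trans (le_max_left _ _)
  obtain ⟨D', hD'0, hDD⟩ : ∃ D' : ℝ, 0 ≤ D' ∧ ∀ᶠ T in atTop, ∫ y in (1 : ℝ)..2, NU k2 ℓ2 T y ≤ D' :=
    ⟨max D 0, le_max_right _ _, hD'⟩
  have hρ' : ∀ᶠ T in atTop, ∫ y in (1 : ℝ)..2, NU k ℓ T y ≤ |ρ| + 1 :=
    hlim.eventually (Filter.eventually_of_mem (Iic_mem_nhds (by linarith [le_abs_self ρ])) fun x hx => hx)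
  obtain ⟨T0, hT0⟩ := eventually_atTop.1 (hDD.and hρ')
  have hbig : ∀ᶠ T : ℝ in atTop, T0 ≤ T / Real.log T ^ 3 := by
    have h1 : Tendsto (fun T : ℝ => T / Real.log T ^ 3) atTop atTop := by
      have h3 : Tendsto (fun T : ℝ => Real.log T ^ 3 / T) atTop (𝓝[>] 0) := by
        apply tendsto_nhdsWithin_of_tendsto_nhds_of_eventually_within
        · exact (Real.isLittleO_pow_log_id_atTop (n := 3)).tendsto_div_nhds_zero
        · filter_upwards [eventually_gt_atTop 1] with T hT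
          have := Real.log_pos hT
          have : 0 < T := by linarith
          show 0 < Real.log T ^ 3 / T
          positivity
      have h4 := tendsto_inv_nhdsGT_zero.comp h3
      refine h4.congr fun T => ?_
      simp
    exact h1.eventually_ge_atTop T0
  have hI0 : ∀ T, 0 ≤ ∫ y in (1 : ℝ)..2, NU k2 ℓ2 T y := fun T =>
    intervalIntegral.integral_nonneg (by norm_num) fun y _ => NU_nonneg h2.nn _ _ _
  have hJ0 : ∀ T, 0 ≤ ∫ y in (1 : ℝ)..2, NU k ℓ T y := fun T =>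
    intervalIntegral.integral_nonneg (by norm_num) fun y _ => NU_nonneg h.nn _ _ _
  -- the error
  have herr : ∀ᶠ T : ℝ in atTop, ∀ V : ℝ, 1 / Real.log T ^ 3 ≤ V → V ≤ Real.log T ^ 3 →
      0 < V ∧ (Real.log (V * T) / Real.log T) ^ 2 ≤ 4 ∧ T0 ≤ V * T ∧
      |(∫ y in (1 : ℝ)..2, NU k ℓ T (V * y)) -
        (Real.log (V * T) / Real.log T) ^ 2 * ∫ y in (1 : ℝ)..2, NU k ℓ (V * T) y| ≤
      A * (Real.log T * Real.exp (-T ^ 2 / 4)) + 4 * (C * (ℓ + 1) * |Real.log V| / Real.log T) * D' ∧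
      |Real.log V| / Real.log T ≤ 1 := by
    filter_upwards [hint, scales ℓ, hbig] with T h1 ⟨t1, t2, t3⟩ h3 V hV1 hV2
    obtain ⟨a1, a2, a3, a4, a5, -, -⟩ := t3 V hV1 hV2
    have hL0 : 0 < Real.log T := by linarith
    have hsq : (Real.log (V * T) / Real.log T) ^ 2 ≤ 4 := by
      have hab := abs_le.1 a5
      have h6 : Real.log (V * T) / Real.log T ≤ 2 := by
        rw [div_le_iff₀ hL0, a4]; linarith
      have h7 : 0 ≤ Real.log (V * T) / Real.log T := by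
        apply div_nonneg _ hL0.le
        rw [a4]; linarith
      nlinarith
    refine ⟨a1, hsq, h3.trans a3, (h1 V hV1 hV2).trans ?_, ?_⟩
    · have h8 := (hT0 (V * T) (h3.trans a3)).1
      have h9 : (Real.log (V * T) / Real.log T) ^ 2 * (C * (ℓ + 1) * |Real.log V| / Real.log T) *
          (∫ y in (1 : ℝ)..2, NU k2 ℓ2 (V * T) y) ≤ 4 * (C * (ℓ + 1) * |Real.log V| / Real.log T) * D' := by
        have h10 : 0 ≤ C * (ℓ + 1) * |Real.log V| / Real.log T := by positivity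
        exact mul_le_mul (mul_le_mul_of_nonneg_right hsq h10) h8 (hI0 _) (by positivity)
      linarith
    · rw [div_le_one hL0]; linarith
  constructor
  · refine ⟨1 + 4 * (C * (ℓ + 1)) * D' + 4 * (|ρ| + 1), by positivity, ?_⟩
    filter_upwards [herr, (tail_lim A).eventually (eventually_le_nhds one_pos)] with T h1 h3 V hV1 hV2
    obtain ⟨a1, a2, a3, a4, a5⟩ := h1 V hV1 hV2
    rw [NU_chg, mul_comm]
    apply mul_le_mul_of_nonneg_right _ a1.le
    have b1 := (abs_le.1 a4).2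
    have b2 := (hT0 (V * T) a3).2
    have b3 : (Real.log (V * T) / Real.log T) ^ 2 * (∫ y in (1 : ℝ)..2, NU k ℓ (V * T) y) ≤ 4 * (|ρ| + 1) :=
      mul_le_mul a2 b2 (hJ0 _) (by norm_num)
    have b4 : 4 * (C * (ℓ + 1) * |Real.log V| / Real.log T) * D' ≤ 4 * (C * (ℓ + 1)) * D' := by
      apply mul_le_mul_of_nonneg_right _ hD'0
      apply mul_le_mul_of_nonneg_left _ (by norm_num)
      rw [mul_div_assoc]
      have : 0 ≤ C * (ℓ + 1) := by positivity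
      nlinarith
    linarith
  · intro V hV
    have hev : ∀ᶠ T : ℝ in atTop, 1 / Real.log T ^ 3 ≤ V ∧ V ≤ Real.log T ^ 3 := by
      filter_upwards [Real.tendsto_log_atTop.eventually_ge_atTop (max 1 (max V (1 / V)))] with T hT
      have h1 : 1 ≤ Real.log T := (le_max_left _ _).trans hT
      have h2 : V ≤ Real.log T := ((le_max_left _ _).trans (le_max_right _ _)).trans hT
      have h3 : 1 / V ≤ Real.log T := ((le_max_right _ _).trans (le_max_right _ _)).trans hT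
      have h4 : Real.log T ≤ Real.log T ^ 3 := le_self_pow₀ h1 (by norm_num)
      refine ⟨?_, h2.trans h4⟩
      rw [div_le_iff₀ (by positivity)]
      rw [div_le_iff₀ hV] at h3
      nlinarith
    have hr : Tendsto (fun T : ℝ => Real.log (V * T) / Real.log T) atTop (𝓝 1) := by
      have h1 : Tendsto (fun T : ℝ => 1 + Real.log V / Real.log T) atTop (𝓝 (1 + 0)) :=
        tendsto_const_nhds.add (Real.tendsto_log_atTop.const_div_atTop (Real.log V))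
      rw [add_zero] at h1
      apply h1.congr'
      filter_upwards [eventually_gt_atTop 1] with T hT
      have hL := Real.log_pos hT
      rw [Real.log_mul hV.ne' (by linarith)]
      field_simp
      ring
    have hVT : Tendsto (fun T : ℝ => V * T) atTop atTop := tendsto_id.const_mul_atTop hV
    have hg := (hr.pow 2).mul (hlim.comp hVT)
    rw [one_pow, one_mul] at hg
    have he : Tendsto (fun T : ℝ => A * (Real.log T * Real.exp (-T ^ 2 / 4)) +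
        4 * (C * (ℓ + 1) * |Real.log V| / Real.log T) * D') atTop (𝓝 0) := by
      have h1 := ((Real.tendsto_log_atTop.const_div_atTop (C * (ℓ + 1) * |Real.log V|)).const_mul 4).mul_const D'
      have h3 := (tail_lim A).add h1
      simpa using h3
    have hd : Tendsto (fun T : ℝ => (∫ y in (1 : ℝ)..2, NU k ℓ T (V * y)) -
        (Real.log (V * T) / Real.log T) ^ 2 * ∫ y in (1 : ℝ)..2, NU k ℓ (V * T) y) atTop (𝓝 0) := by
      apply squeeze_zero_norm' _ he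
      filter_upwards [herr, hev] with T h1 ⟨h3, h4⟩
      exact (h1 V h3 h4).2.2.2.1
    have hs := (hg.add hd).const_mul V
    rw [add_zero, mul_comm V ρ] at hs
    refine hs.congr fun T => ?_
    rw [NU_chg]
    simp only [Function.comp]
    ring

end Pool.Agent.L5helper12.CV
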