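import Pool.Agent.L5helper13.TQ.Defs

set_option autoImplicit false

namespace Pool.Agent.L5helper13.TQ

open MvPolynomial

theorem coeff_AA (k : Type) [Field k] (n d : ℕ)
    (ρ : (Fin d → kˣ) → MvPolynomial (Fin n) k) (m : ℕ) (F : MvPolynomial (Fin d ⊕ Fin n) k)
    (h : ∀ t : Fin d → kˣ, C ((∏ i, ((t i : kˣ) : k)) ^ m) * ρ t =
      aeval (Sum.elim (fun i : Fin d => (C ((t i : kˣ) : k) : MvPolynomial (Fin n) k))
        (fun l : Fin n => (X l : MvPolynomial (Fin n) k))) F) (e : Fin n →₀ ℕ) :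
    (fun t => coeff e (ρ t)) ∈ AA k d := by
  have key : ∀ G : MvPolynomial (Fin d ⊕ Fin n) k, (fun t : Fin d → kˣ =>
      ((∏ i, ((t i : kˣ) : k)) ^ m)⁻¹ * coeff e
        (aeval (Sum.elim (fun i : Fin d => (C ((t i : kˣ) : k) : MvPolynomial (Fin n) k))
        (fun l : Fin n => (X l : MvPolynomial (Fin n) k))) G)) ∈ AA k d := by
    intro G
    induction G using MvPolynomial.induction_on' with
    | monomial u c =>
      let χ' : (Fin d → kˣ) →* kˣ := MonoidHom.mk' (fun t => (∏ i, t i ^ u (Sum.inl i)) * ((∏ i, t i) ^ m)⁻¹)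
        fun a b => by
          simp only [Pi.mul_apply, mul_pow, Finset.prod_mul_distrib, mul_inv]
          exact mul_mul_mul_comm _ _ _ _
      let χ : (Fin d → kˣ) →* k := (Units.coeHom k).comp χ'
      have h1 : (fun t : Fin d → kˣ => ((∏ i, ((t i : kˣ) : k)) ^ m)⁻¹ * coeff e
          (aeval (Sum.elim (fun i : Fin d => (C ((t i : kˣ) : k) : MvPolynomial (Fin n) k))
          (fun l : Fin n => (X l : MvPolynomial (Fin n) k))) (monomial u c))) =
          (c * coeff e (∏ l : Fin n, (X l : MvPolynomial (Fin n) k) ^ u (Sum.inr l))) • (fun t => χ t) := by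
        funext t
        rw [aeval_monomial, Finsupp.prod_fintype _ _ (fun i => pow_zero _), Fintype.prod_sum_type]
        simp only [Sum.elim_inl, Sum.elim_inr, ← C_pow, ← map_prod]
        rw [algebraMap_eq, coeff_C_mul, coeff_C_mul]
        have h2 : χ t = (∏ i, ((t i : kˣ) : k) ^ u (Sum.inl i)) * ((∏ i, ((t i : kˣ) : k)) ^ m)⁻¹ := by
          simp [χ, χ']
        simp only [Pi.smul_apply, smul_eq_mul]
        rw [h2]
        ring
      rw [h1]
      exact Submodule.smul_mem _ _ (Submodule.subset_span ⟨χ, rfl⟩)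
    | add p q hp hq =>
      have h1 := Submodule.add_mem _ hp hq
      refine (congrArg (· ∈ AA k d) (funext fun t => ?_)).mp h1
      simp only [Pi.add_apply, map_add, coeff_add]
      ring
  refine (congrArg (· ∈ AA k d) (funext fun t => ?_)).mp (key F)
  rw [← h t, coeff_C_mul]
  have h3 : (∏ i, ((t i : kˣ) : k)) ^ m ≠ 0 := pow_ne_zero _ (Finset.prod_ne_zero_iff.2 fun i _ => (t i).ne_zero)
  field_simp

end Pool.Agent.L5helper13.TQ
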